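import Mathlib

set_option autoImplicit false
open Finset Polynomial
open scoped Nat

namespace Pool.Agent.H.MP_7c1d9a_an

noncomputable def aa : ℕ → ℝ
  | 0 => 1
  | n + 1 => aa n * ((n : ℝ) + 1 / 2) / ((n : ℝ) + 1)

lemma aa_nonneg : ∀ n, 0 ≤ aa n
  | 0 => by simp [aa]
  | n + 1 => by
    have := aa_nonneg n
    simp only [aa]
    positivity

lemma aa_succ (n : ℕ) : ((n : ℝ) + 1) * aa (n + 1) = ((n : ℝ) + 1 / 2) * aa n := by
  simp only [aa]
  field_simp

lemma half_sum (n : ℕ) : 2 * ∑ p ∈ antidiagonal n, (p.1 : ℝ) * (aa p.1 * aa p.2)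
    = n * ∑ p ∈ antidiagonal n, aa p.1 * aa p.2 := by
  have h := Finset.Nat.sum_antidiagonal_swap (n := n)
    (f := fun p : ℕ × ℕ => (p.1 : ℝ) * (aa p.1 * aa p.2))
  rw [two_mul]
  nth_rewrite 1 [← h]
  rw [← sum_add_distrib, mul_sum]
  refine sum_congr rfl fun p hp => ?_
  have : p.1 + p.2 = n := mem_antidiagonal.1 hp
  simp only [Prod.fst_swap, Prod.snd_swap]
  rw [← this]
  push_cast
  ring

lemma aa_conv : ∀ n, ∑ p ∈ antidiagonal n, aa p.1 * aa p.2 = 1
  | 0 => by simp [aa]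
  | n + 1 => by
    have ih := aa_conv n
    have h1 := half_sum (n + 1)
    have h2 := half_sum n
    rw [Finset.Nat.sum_antidiagonal_succ] at h1
    have h3 : ∑ p ∈ antidiagonal n, (((p.1 + 1 : ℕ) : ℝ)) * (aa (p.1 + 1) * aa p.2)
        = ∑ p ∈ antidiagonal n, (p.1 : ℝ) * (aa p.1 * aa p.2)
          + 1 / 2 * ∑ p ∈ antidiagonal n, aa p.1 * aa p.2 := by
      rw [mul_sum, ← sum_add_distrib]
      refine sum_congr rfl fun p _ => ?_
      have := aa_succ p.1
      push_cast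
      rw [← mul_assoc, this]
      ring
    simp only [Nat.cast_zero, zero_mul, zero_add] at h1
    rw [h3, ih] at h1
    rw [ih] at h2
    have hn : ((n + 1 : ℕ) : ℝ) ≠ 0 := by positivity
    apply mul_left_cancel₀ hn
    rw [← h1]
    push_cast
    linarith

noncomputable def PP (k : ℕ) : ℝ[X] := ∑ p ∈ antidiagonal k, C (aa p.1) * (C (aa p.2) * X ^ p.2)

lemma PP_conv (s : ℕ) : ∑ p ∈ antidiagonal s, PP p.1 * PP p.2 = ∑ i ∈ range (s + 1), (X : ℝ[X]) ^ i := by
  set A : PowerSeries ℝ[X] := PowerSeries.mk fun n => C (aa n) with hA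
  set B : PowerSeries ℝ[X] := PowerSeries.mk fun n => C (aa n) * X ^ n with hB
  have hP : ∀ k, PP k = PowerSeries.coeff k (A * B) := by
    intro k
    rw [PowerSeries.coeff_mul]
    simp [PP, hA, hB]
  have hAA : ∀ k, PowerSeries.coeff k (A * A) = 1 := by
    intro k
    rw [PowerSeries.coeff_mul]
    simp only [hA, PowerSeries.coeff_mk, ← C_mul]
    rw [← map_sum, aa_conv, map_one]
  have hBB : ∀ k, PowerSeries.coeff k (B * B) = X ^ k := by
    intro k
    rw [PowerSeries.coeff_mul]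
    simp only [hB, PowerSeries.coeff_mk]
    have : ∀ p ∈ antidiagonal k, C (aa p.1) * X ^ p.1 * (C (aa p.2) * X ^ p.2)
        = C (aa p.1 * aa p.2) * (X : ℝ[X]) ^ k := by
      intro p hp
      rw [← mem_antidiagonal.1 hp, C_mul, pow_add]
      ring
    rw [sum_congr rfl this, ← sum_mul, ← map_sum, aa_conv, map_one, one_mul]
  simp only [hP]
  rw [← PowerSeries.coeff_mul]
  have : A * B * (A * B) = (B * B) * (A * A) := by ring
  rw [this, PowerSeries.coeff_mul]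
  simp only [hAA, hBB, mul_one]
  rw [Finset.Nat.sum_antidiagonal_eq_sum_range_succ (fun i _ => (X : ℝ[X]) ^ i)]

lemma PP_eval (k : ℕ) : (PP k).eval 1 = 1 := by
  simp only [PP, eval_finset_sum, eval_mul, eval_C, eval_pow, eval_X, one_pow, mul_one]
  exact aa_conv k

def Pos (p : ℝ[X]) : Prop := ∀ n, 0 ≤ p.coeff n

lemma Pos.mul {p q : ℝ[X]} (hp : Pos p) (hq : Pos q) : Pos (p * q) := by
  intro n
  rw [coeff_mul]
  exact sum_nonneg fun x _ => mul_nonneg (hp _) (hq _)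

lemma Pos.sum {ι : Type*} {s : Finset ι} {f : ι → ℝ[X]} (h : ∀ i ∈ s, Pos (f i)) :
    Pos (∑ i ∈ s, f i) := by
  intro n
  rw [finset_sum_coeff]
  exact sum_nonneg fun i hi => h i hi n

lemma pos_X_pow (k : ℕ) : Pos (X ^ k) := by
  intro n
  rw [coeff_X_pow]
  split_ifs <;> norm_num

lemma pos_C {c : ℝ} (hc : 0 ≤ c) : Pos (C c) := by
  intro n
  rw [coeff_C]
  split_ifs
  · exact hc
  · exact le_rfl

lemma Pos.pow {p : ℝ[X]} (hp : Pos p) : ∀ k : ℕ, Pos (p ^ k)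
  | 0 => by simpa using pos_X_pow 0
  | k + 1 => by rw [pow_succ]; exact (hp.pow k).mul hp

lemma pos_PP (k : ℕ) : Pos (PP k) :=
  Pos.sum fun p _ => (pos_C (aa_nonneg _)).mul ((pos_C (aa_nonneg _)).mul (pos_X_pow _))

/-- base `N` number with digits `g`. -/
def dg (N : ℕ) {n : ℕ} (g : Fin n → ℕ) : ℕ := ∑ x : Fin n, g x * N ^ (x : ℕ)

lemma dg_lt {N n : ℕ} {g : Fin n → ℕ} (h : ∀ x, g x < N) : dg N g < N ^ n :=
  (finFunctionFinEquiv (fun x => (⟨g x, h x⟩ : Fin N))).isLt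

lemma dg_inj {N n : ℕ} {g g' : Fin n → ℕ} (h : ∀ x, g x < N) (h' : ∀ x, g' x < N)
    (e : dg N g = dg N g') : g = g' := by
  have : finFunctionFinEquiv (fun x => (⟨g x, h x⟩ : Fin N))
      = finFunctionFinEquiv (fun x => (⟨g' x, h' x⟩ : Fin N)) := Fin.ext e
  have h2 := finFunctionFinEquiv.injective this
  funext x
  exact congrArg Fin.val (congrFun h2 x)

noncomputable def pool (N n L : ℕ) : ℝ[X] := ∑ x : Fin n, X ^ (L * N ^ (x : ℕ))

lemma pos_pool (N n L : ℕ) : Pos (pool N n L) := Pos.sum fun _ _ => pos_X_pow _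

lemma pool_eval (N n L : ℕ) : (pool N n L).eval 1 = n := by
  simp [pool, eval_finset_sum]

lemma pool_pow (N n L p : ℕ) : pool N n L ^ p
    = ∑ g ∈ piAntidiag (univ : Finset (Fin n)) p,
      C (Nat.multinomial univ g : ℝ) * X ^ (L * dg N g) := by
  rw [pool, sum_pow_eq_sum_piAntidiag]
  refine sum_congr rfl fun g _ => ?_
  congr 1
  simp only [← pow_mul]
  rw [prod_pow_eq_pow_sum, dg, mul_sum]
  congr 1
  refine sum_congr rfl fun x _ => ?_
  ring

lemma multi_le {n p : ℕ} {g : Fin n → ℕ} (hg : g ∈ piAntidiag (univ : Finset (Fin n)) p) :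
    (Nat.multinomial univ g : ℝ) ≤ p ! := by
  have h := Nat.multinomial_spec (univ : Finset (Fin n)) g
  rw [(mem_piAntidiag.1 hg).1] at h
  have h1 : 1 ≤ ∏ i, (g i)! := Nat.succ_le_of_lt (prod_pos fun i _ => Nat.factorial_pos _)
  have : Nat.multinomial univ g ≤ p ! := by
    rw [← h]
    exact Nat.le_mul_of_pos_left _ h1
  exact_mod_cast this

lemma le_of_mem {n p : ℕ} {g : Fin n → ℕ} (hg : g ∈ piAntidiag (univ : Finset (Fin n)) p)
    (x : Fin n) : g x ≤ p := by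
  rw [← (mem_piAntidiag.1 hg).1]
  exact single_le_sum (f := g) (fun _ _ => Nat.zero_le _) (mem_univ x)

lemma card_pi (n p : ℕ) :
    ((piAntidiag (univ : Finset (Fin n)) p).card : ℝ) ≤ ((n : ℝ) + p) ^ p / p ! := by
  rw [← map_sym_eq_piAntidiag, card_map, sym_univ, card_univ, Sym.card_sym_eq_choose,
    Fintype.card_fin]
  refine (Nat.choose_le_pow_div p (n + p - 1)).trans ?_
  gcongr
  have : n + p - 1 ≤ n + p := Nat.sub_le _ _
  exact_mod_cast this

lemma coeff_le {ι : Type*} (T : Finset ι) (wt : ι → ℝ) (pos : ι → ℕ) (hinj : Set.InjOn pos T)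
    {M : ℝ} (hM : ∀ t ∈ T, wt t ≤ M) (h0 : 0 ≤ M) (m : ℕ) :
    (∑ t ∈ T, C (wt t) * X ^ (pos t)).coeff m ≤ M := by
  rw [finset_sum_coeff]
  simp only [coeff_C_mul_X_pow]
  by_cases h : ∃ t ∈ T, pos t = m
  · obtain ⟨t, ht, rfl⟩ := h
    rw [sum_eq_single_of_mem t ht]
    · simpa using hM t ht
    · intro u hu hne
      rw [if_neg]
      intro e
      exact hne (hinj hu ht e.symm)
  · rw [sum_eq_zero]
    · exact h0
    · intro t ht
      rw [if_neg]
      intro e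
      exact h ⟨t, ht, e.symm⟩

lemma coeff_ne {ι : Type*} (T : Finset ι) (wt : ι → ℝ) (pos : ι → ℕ) (m : ℕ)
    (h : (∑ t ∈ T, C (wt t) * X ^ (pos t)).coeff m ≠ 0) : ∃ t ∈ T, pos t = m := by
  by_contra hc
  apply h
  rw [finset_sum_coeff]
  simp only [coeff_C_mul_X_pow]
  refine sum_eq_zero fun t ht => ?_
  rw [if_neg]
  intro e
  exact hc ⟨t, ht, e.symm⟩

end Pool.Agent.H.MP_7c1d9a_an
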