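import Pool.Agent.H.MP_7c1d9a_an.A

set_option autoImplicit false
open Finset Polynomial
open scoped Nat

namespace Pool.Agent.H.MP_7c1d9a_an

noncomputable def VV (a b N p q : ℕ) : ℝ[X] := pool N a N ^ p * pool N b (N * N ^ a) ^ q

lemma pos_VV (a b N p q : ℕ) : Pos (VV a b N p q) :=
  ((pos_pool _ _ _).pow _).mul ((pos_pool _ _ _).pow _)

noncomputable def FF (a b k w N : ℕ) : ℝ[X] := ∑ j ∈ range w, PP j * VV a b N (k - j) (k + j)

lemma pos_FF (a b k w N : ℕ) : Pos (FF a b k w N) :=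
  Pos.sum fun _ _ => (pos_PP _).mul (pos_VV _ _ _ _ _)

lemma FF_eval (a b k w N : ℕ) :
    (FF a b k w N).eval 1 = ∑ j ∈ range w, (a : ℝ) ^ (k - j) * (b : ℝ) ^ (k + j) := by
  simp [FF, VV, eval_finset_sum, PP_eval, pool_eval]

abbrev Ix (a b : ℕ) := Σ _ : ℕ, ℕ × (Fin a → ℕ) × (Fin b → ℕ)

def TT (a b k w e : ℕ) : Finset (Ix a b) :=
  (range (2 * w)).sigma fun s => range (s + e) ×ˢ
    (piAntidiag (univ : Finset (Fin a)) (2 * k - s) ×ˢ piAntidiag (univ : Finset (Fin b)) (2 * k + s))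

def ps {a b : ℕ} (N : ℕ) (t : Ix a b) : ℕ := t.2.1 + N * dg N t.2.2.1 + N * N ^ a * dg N t.2.2.2

noncomputable def wt {a b : ℕ} (t : Ix a b) : ℝ :=
  (Nat.multinomial univ t.2.2.1 : ℝ) * (Nat.multinomial univ t.2.2.2 : ℝ)

lemma UU_eq (a b k w N : ℕ) :
    ∑ s ∈ range (2 * w), (∑ i ∈ range (s + 1), (X : ℝ[X]) ^ i) * VV a b N (2 * k - s) (2 * k + s)
      = ∑ t ∈ TT a b k w 1, C (wt t) * X ^ (ps N t) := by
  rw [TT, sum_sigma]
  refine sum_congr rfl fun s _ => ?_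
  rw [sum_product, sum_mul]
  refine sum_congr rfl fun i _ => ?_
  rw [sum_product, VV, pool_pow, pool_pow, sum_mul_sum, mul_sum]
  refine sum_congr rfl fun g _ => ?_
  rw [mul_sum]
  refine sum_congr rfl fun h _ => ?_
  simp only [wt, ps, C_mul, pow_add]
  ring

lemma sq_le (a b k w N : ℕ) (hw : w ≤ k) (m : ℕ) :
    (FF a b k w N * FF a b k w N).coeff m ≤
      (∑ t ∈ TT a b k w 1, C (wt t) * X ^ (ps N t)).coeff m := by
  rw [← UU_eq, FF, sum_mul_sum, ← sum_product']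
  have hmap : ∀ p ∈ range w ×ˢ range w, p.1 + p.2 ∈ range (2 * w) := by
    intro p hp
    simp only [mem_product, mem_range] at hp ⊢
    omega
  rw [← sum_fiberwise_of_maps_to hmap, finset_sum_coeff, finset_sum_coeff]
  refine sum_le_sum fun s _ => ?_
  rw [← PP_conv, sum_mul, finset_sum_coeff, finset_sum_coeff]
  have h1 : ∀ p ∈ (range w ×ˢ range w).filter (fun p : ℕ × ℕ => p.1 + p.2 = s),
      (PP p.1 * VV a b N (k - p.1) (k + p.1) * (PP p.2 * VV a b N (k - p.2) (k + p.2))).coeff m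
        = (PP p.1 * PP p.2 * VV a b N (2 * k - s) (2 * k + s)).coeff m := by
    intro p hp
    simp only [mem_filter, mem_product, mem_range] at hp
    congr 1
    have e1 : 2 * k - s = (k - p.1) + (k - p.2) := by omega
    have e2 : 2 * k + s = (k + p.1) + (k + p.2) := by omega
    rw [e1, e2]
    simp only [VV, pow_add]
    ring
  rw [sum_congr rfl h1]
  refine sum_le_sum_of_subset_of_nonneg ?_ ?_
  · intro p hp
    exact mem_antidiagonal.2 (mem_filter.1 hp).2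
  · intro p _ _
    exact ((pos_PP _).mul (pos_PP _)).mul (pos_VV _ _ _ _ _) m

lemma mem_TT {a b k w e : ℕ} {t : Ix a b} : t ∈ TT a b k w e ↔ t.1 < 2 * w ∧ t.2.1 < t.1 + e ∧
    t.2.2.1 ∈ piAntidiag (univ : Finset (Fin a)) (2 * k - t.1) ∧
    t.2.2.2 ∈ piAntidiag (univ : Finset (Fin b)) (2 * k + t.1) := by
  simp only [TT, mem_sigma, mem_range, mem_product]

lemma split_eq {N i j x y : ℕ} (hi : i < N) (hj : j < N) (h : i + N * x = j + N * y) :
    i = j ∧ x = y := by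
  have h1 : (i + N * x) % N = (j + N * y) % N := by rw [h]
  rw [Nat.add_mul_mod_self_left, Nat.add_mul_mod_self_left, Nat.mod_eq_of_lt hi,
    Nat.mod_eq_of_lt hj] at h1
  refine ⟨h1, ?_⟩
  subst h1
  have : N * x = N * y := by omega
  exact Nat.eq_of_mul_eq_mul_left (by omega) this

lemma ps_inj (a b k w N : ℕ) (hw : w ≤ k) (hN : 4 * k < N) :
    Set.InjOn (ps N : Ix a b → ℕ) (TT a b k w 1) := by
  rintro ⟨s, i, g, h⟩ ht ⟨s', i', g', h'⟩ ht' e
  rw [mem_coe, mem_TT] at ht ht'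
  obtain ⟨t1, t2, t3, t4⟩ := ht
  obtain ⟨u1, u2, u3, u4⟩ := ht'
  simp only at t1 t2 t3 t4 u1 u2 u3 u4
  have g1 : ∀ x, g x < N := fun x => by have := le_of_mem t3 x; omega
  have g2 : ∀ x, g' x < N := fun x => by have := le_of_mem u3 x; omega
  have g3 : ∀ x, h x < N := fun x => by have := le_of_mem t4 x; omega
  have g4 : ∀ x, h' x < N := fun x => by have := le_of_mem u4 x; omega
  have e1 : i + N * (dg N g + N ^ a * dg N h) = i' + N * (dg N g' + N ^ a * dg N h') := by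
    simp only [ps] at e
    rw [mul_add, mul_add, ← mul_assoc, ← mul_assoc, ← add_assoc, ← add_assoc]
    exact e
  obtain ⟨e2, e3⟩ := split_eq (by omega) (by omega) e1
  obtain ⟨e4, e5⟩ := split_eq (dg_lt g1) (dg_lt g2) e3
  have e6 := dg_inj g1 g2 e4
  have e7 := dg_inj g3 g4 e5
  subst e2 e6 e7
  have f1 := (mem_piAntidiag.1 t4).1
  have f2 := (mem_piAntidiag.1 u4).1
  have : s = s' := by omega
  subst this
  rfl

noncomputable def hh (K s : ℕ) : ℝ := ((K - s)! : ℝ) * ((K + s)! : ℝ)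

lemma hh_pos (K s : ℕ) : 0 < hh K s := by unfold hh; positivity

lemma hh_succ {K s : ℕ} (h : s < K) : hh K (s + 1) * ((K : ℝ) - s) = hh K s * ((K : ℝ) + s + 1) := by
  obtain ⟨d, rfl⟩ := Nat.exists_eq_add_of_lt h
  have e1 : s + d + 1 - (s + 1) = d := by omega
  have e2 : s + d + 1 - s = d + 1 := by omega
  have e3 : s + d + 1 + (s + 1) = (s + d + 1 + s) + 1 := by omega
  simp only [hh]
  rw [e1, e2, e3, Nat.factorial_succ d, Nat.factorial_succ (s + d + 1 + s)]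
  push_cast
  ring

lemma hh_ge {K : ℕ} : ∀ s, s ≤ K → hh K 0 ≤ hh K s
  | 0, _ => le_rfl
  | s + 1, h => by
    have ih := hh_ge s (by omega : s ≤ K)
    have h1 := hh_succ (by omega : s < K)
    have h2 : (s : ℝ) + 1 ≤ K := by exact_mod_cast h
    have h3 := hh_pos K s
    have h4 := hh_pos K (s + 1)
    have h5 : (0 : ℝ) ≤ s := Nat.cast_nonneg s
    refine ih.trans ?_
    by_contra hc
    push Not at hc
    nlinarith

lemma hh_le {K W : ℕ} {r : ℝ} (hW : W < K) (hr : (K : ℝ) + W ≤ r * ((K : ℝ) - W)) :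
    ∀ s, s ≤ W → hh K s ≤ hh K 0 * r ^ s
  | 0, _ => by simp
  | s + 1, h => by
    have ih := hh_le hW hr s (by omega : s ≤ W)
    have h1 := hh_succ (by omega : s < K)
    have h2 : (s : ℝ) + 1 ≤ W := by exact_mod_cast h
    have h2' : (W : ℝ) < K := by exact_mod_cast hW
    have h3 := hh_pos K s
    have h4 := hh_pos K (s + 1)
    have h5 : (0 : ℝ) ≤ s := Nat.cast_nonneg s
    have hr0 : 0 ≤ r := by
      by_contra hc
      push Not at hc
      nlinarith
    have h6 : (K : ℝ) + s + 1 ≤ r * ((K : ℝ) - s) := by nlinarith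
    have h7 : hh K (s + 1) ≤ hh K s * r := by
      have h8 : (0 : ℝ) < K - s := by linarith
      have : hh K (s + 1) * ((K : ℝ) - s) ≤ hh K s * r * ((K : ℝ) - s) := by
        rw [h1, mul_assoc]
        exact mul_le_mul_of_nonneg_left h6 h3.le
      exact le_of_mul_le_mul_right this h8
    rw [pow_succ, ← mul_assoc]
    exact h7.trans (mul_le_mul_of_nonneg_right ih hr0)

lemma wt_le {a b k w : ℕ} {t : Ix a b} (ht : t ∈ TT a b k w 1) : wt t ≤ hh (2 * k) t.1 := by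
  obtain ⟨-, -, t3, t4⟩ := mem_TT.1 ht
  exact mul_le_mul (multi_le t3) (multi_le t4) (Nat.cast_nonneg _) (Nat.cast_nonneg _)

lemma card_TT (a b k w : ℕ) : ((TT a b k w 2).card : ℝ) ≤ ∑ s ∈ range (2 * w),
    ((s : ℝ) + 2) * ((((a : ℝ) + (2 * k - s : ℕ)) ^ (2 * k - s) * ((b : ℝ) + (2 * k + s : ℕ)) ^ (2 * k + s))
      / hh (2 * k) s) := by
  rw [TT, card_sigma]
  push_cast [Nat.cast_sum]
  refine sum_le_sum fun s _ => ?_
  rw [card_product, card_product, card_range]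
  have h1 := card_pi a (2 * k - s)
  have h2 := card_pi b (2 * k + s)
  have h3 := mul_le_mul h1 h2 (Nat.cast_nonneg _) (by positivity)
  rw [div_mul_div_comm] at h3
  push_cast at h3 ⊢
  exact mul_le_mul_of_nonneg_left h3 (by positivity)

lemma geo2 (r : ℝ) : ∀ n : ℕ, (∑ s ∈ range n, ((s : ℝ) + 2) * r ^ s) * (1 - r) ^ 2
    = 2 - r - r ^ n * (((n : ℝ) + 2) - ((n : ℝ) + 1) * r)
  | 0 => by simp
  | n + 1 => by
    rw [sum_range_succ, add_mul, geo2 r n]
    push_cast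
    ring

lemma ex_root (n : ℕ) {d : ℝ} (hd : 0 < d) : ∃ e : ℝ, 0 < e ∧ (1 + e) ^ n ≤ 1 + d := by
  have hc : ContinuousAt (fun e : ℝ => (1 + e) ^ n) 0 := by fun_prop
  have h1 : ∀ᶠ e in nhds (0 : ℝ), (1 + e) ^ n < 1 + d :=
    hc.eventually (gt_mem_nhds (by simpa using hd))
  have h2 : ∀ᶠ e in nhdsWithin (0 : ℝ) (Set.Ioi 0), (1 + e) ^ n < 1 + d :=
    h1.filter_mono nhdsWithin_le_nhds
  obtain ⟨e, he1, he2⟩ := (h2.and self_mem_nhdsWithin).exists
  exact ⟨e, he2, he1.le⟩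

end Pool.Agent.H.MP_7c1d9a_an
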