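import Pool.Agent.H.MP_7c1d9a_an.B

set_option autoImplicit false
open Finset Polynomial
open scoped Nat

namespace Pool.Agent.H.MP_7c1d9a_an

lemma pw_eq {a b r : ℝ} (h : b = r * a) {K s : ℕ} (hs : s ≤ K) :
    a ^ (K - s) * b ^ (K + s) = (a * b) ^ K * r ^ s := by
  obtain ⟨d, rfl⟩ := Nat.exists_eq_add_of_le hs
  rw [Nat.add_sub_cancel_left, h]
  simp only [mul_pow, pow_add]
  ring

lemma num10 {d : ℝ} (hd0 : 0 < d) (hd1 : d ≤ 1 / 10) :
    (1 - 10 * d) * (1 + d) * (1 + d) ^ 2 < (1 - d) ^ 2 := by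
  have h1 : d * d ≤ d * (1 / 10) := mul_le_mul_of_nonneg_left hd1 hd0.le
  have h3 : d * (d * d) ≤ d * (d * (1 / 10)) := mul_le_mul_of_nonneg_left h1 hd0.le
  have : (1 + d) * (1 + d) ^ 2 ≤ 1 + 4 * d := by nlinarith
  have h2 : (1 - 10 * d) * ((1 + d) * (1 + d) ^ 2) ≤ (1 - 10 * d) * (1 + 4 * d) :=
    mul_le_mul_of_nonneg_left this (by linarith)
  nlinarith

set_option maxHeartbeats 4000000 in
theorem exists_poly {c : ℝ} (hc : 0 < c) : ∃ (F : ℝ[X]) (M : ℝ) (D : Finset ℕ), Pos F ∧ 0 ≤ M ∧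
    (∀ m, (F * F).coeff m ≤ M) ∧ (∀ m, (F * F).coeff m ≠ 0 → m ∈ D ∧ m + 1 ∈ D) ∧
    0 < F.eval 1 ∧ (1 - c) * M * D.card < (F.eval 1) ^ 2 := by
  set d : ℝ := min c 1 / 10 with hd
  have hd0 : 0 < d := by rw [hd]; have := lt_min hc one_pos; linarith
  have hd1 : d ≤ 1 / 10 := by rw [hd]; have := min_le_right c 1; linarith
  have hdc : 1 - c ≤ 1 - 10 * d := by rw [hd]; have := min_le_left c 1; linarith
  clear_value d
  obtain ⟨m0, hm0⟩ := exists_nat_one_div_lt hd0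
  set m : ℕ := m0 + 1 with hm
  have hm1 : (1 : ℝ) ≤ m := by rw [hm]; push_cast; linarith [(Nat.cast_nonneg m0 : (0 : ℝ) ≤ m0)]
  set r : ℝ := m / (m + 1) with hr
  have hr0 : 0 < r := by rw [hr]; positivity
  have hr1 : r < 1 := by rw [hr, div_lt_one (by positivity)]; linarith
  have hr2 : 1 - r ≤ d := by
    have e : 1 - r = 1 / ((m : ℝ) + 1) := by rw [hr]; field_simp; ring
    rw [e]
    refine le_trans ?_ hm0.le
    apply one_div_le_one_div_of_le (by positivity)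
    rw [hm]; push_cast; linarith
  clear_value m r
  obtain ⟨w0, hw0⟩ := exists_pow_lt_of_lt_one hd0 hr1
  set w : ℕ := w0 + 1 with hw
  have hw1 : r ^ w ≤ d := by
    rw [hw, pow_succ]
    have := pow_pos hr0 w0
    nlinarith
  clear_value w
  obtain ⟨e1, he1, he1'⟩ := ex_root (2 * w) hd0
  obtain ⟨k0, hk0⟩ := exists_nat_ge ((w : ℝ) * (2 + e1) / e1)
  set k : ℕ := k0 + w + 1 with hk
  have hwk : w < k := by omega
  have hk1 : ((2 * k : ℕ) : ℝ) + ((2 * w : ℕ) : ℝ) ≤ (1 + e1) * (((2 * k : ℕ) : ℝ) - ((2 * w : ℕ) : ℝ)) := by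
    rw [div_le_iff₀ he1] at hk0
    have : (k0 : ℝ) ≤ k := by rw [hk]; push_cast; linarith [(Nat.cast_nonneg w : (0 : ℝ) ≤ w)]
    push_cast
    nlinarith
  clear_value k
  obtain ⟨e2, he2, he2'⟩ := ex_root (4 * k) hd0
  obtain ⟨t0, ht0⟩ := exists_nat_ge ((4 * k : ℝ) / e2)
  set t : ℕ := t0 + 1 with ht
  have ht1 : (1 : ℝ) ≤ t := by rw [ht]; push_cast; linarith [(Nat.cast_nonneg t0 : (0 : ℝ) ≤ t0)]
  have ht2 : (4 * k : ℝ) ≤ e2 * t := by
    rw [div_le_iff₀ he2] at ht0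
    have : (t0 : ℝ) ≤ t := by rw [ht]; push_cast; linarith
    nlinarith
  clear_value t
  set a : ℕ := (m + 1) * t with ha
  set b : ℕ := m * t with hb
  have ha' : (a : ℝ) = (m + 1) * t := by rw [ha]; push_cast; ring
  have hb' : (b : ℝ) = m * t := by rw [hb]; push_cast; ring
  have hab : (b : ℝ) = r * a := by rw [ha', hb', hr]; field_simp
  have ha0 : (0 : ℝ) < a := by rw [ha']; positivity
  have hb0 : (0 : ℝ) < b := by rw [hb']; positivity
  have hta : (t : ℝ) ≤ a := by rw [ha']; nlinarith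
  have htb : (t : ℝ) ≤ b := by rw [hb']; nlinarith
  clear_value a b
  set N : ℕ := 4 * k + 1 with hN
  clear_value N
  set Q : ℝ := ((a : ℝ) * b) ^ k with hQ
  have hQ0 : 0 < Q := by rw [hQ]; positivity
  clear_value Q
  have h0 := hh_pos (2 * k) 0
  have hF : (FF a b k w N).eval 1 * (1 - r) = Q * (1 - r ^ w) := by
    rw [FF_eval, ← geom_sum_mul_neg, ← mul_assoc, mul_sum]
    congr 1
    refine sum_congr rfl fun j hj => ?_
    rw [hQ]
    exact pw_eq hab (by have := mem_range.1 hj; omega)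
  have hF0 : 0 < (FF a b k w N).eval 1 := by
    have h1 : 0 < Q * (1 - r ^ w) := mul_pos hQ0 (by linarith)
    rw [← hF] at h1
    exact (mul_pos_iff_of_pos_right (by linarith)).1 h1
  refine ⟨FF a b k w N, hh (2 * k) 0 * (1 + d), (TT a b k w 2).image (ps N), pos_FF _ _ _ _ _,
    by positivity, fun n => ?_, fun n hn => ?_, hF0, ?_⟩
  · refine (sq_le a b k w N hwk.le n).trans ?_
    refine coeff_le _ _ _ (ps_inj a b k w N hwk.le (by omega)) (fun u hu => ?_) (by positivity) n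
    refine (wt_le hu).trans ?_
    have hu1 := (mem_TT.1 hu).1
    refine (hh_le (by omega : 2 * w < 2 * k) hk1 u.1 hu1.le).trans ?_
    refine mul_le_mul_of_nonneg_left (le_trans ?_ he1') h0.le
    exact pow_le_pow_right₀ (by linarith) hu1.le
  · have h1 := sq_le a b k w N hwk.le n
    have h2 := ((pos_FF a b k w N).mul (pos_FF a b k w N)) n
    have h3 : (∑ t ∈ TT a b k w 1, C (wt t) * X ^ (ps N t)).coeff n ≠ 0 :=
      ne_of_gt (lt_of_lt_of_le (lt_of_le_of_ne h2 (Ne.symm hn)) h1)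
    obtain ⟨u, hu, rfl⟩ := coeff_ne _ _ _ _ h3
    obtain ⟨u1, u2, u3, u4⟩ := mem_TT.1 hu
    constructor
    · exact mem_image.2 ⟨u, mem_TT.2 ⟨u1, by omega, u3, u4⟩, rfl⟩
    · refine mem_image.2 ⟨⟨u.1, u.2.1 + 1, u.2.2⟩, mem_TT.2 ⟨u1, by simp only; omega, u3, u4⟩, ?_⟩
      simp only [ps]
      omega
  · have c1 : (((TT a b k w 2).image (ps N)).card : ℝ) ≤ (TT a b k w 2).card := by
      exact_mod_cast card_image_le
    have c2 : ((TT a b k w 2).card : ℝ) ≤
        (1 + d) * Q ^ 2 / hh (2 * k) 0 * ∑ s ∈ range (2 * w), ((s : ℝ) + 2) * r ^ s := by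
      refine (card_TT a b k w).trans ?_
      rw [mul_sum]
      refine sum_le_sum fun s hs => ?_
      have hs1 : s < 2 * w := mem_range.1 hs
      have f1 : ((2 * k - s : ℕ) : ℝ) ≤ 4 * k := by
        have : 2 * k - s ≤ 4 * k := by omega
        exact_mod_cast this
      have f2 : ((2 * k + s : ℕ) : ℝ) ≤ 4 * k := by
        have : 2 * k + s ≤ 4 * k := by omega
        exact_mod_cast this
      have f3 : (a : ℝ) + (2 * k - s : ℕ) ≤ (1 + e2) * a := by
        have := mul_le_mul_of_nonneg_left hta he2.le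
        linarith
      have f4 : (b : ℝ) + (2 * k + s : ℕ) ≤ (1 + e2) * b := by
        have := mul_le_mul_of_nonneg_left htb he2.le
        linarith
      have f5 : ((a : ℝ) + (2 * k - s : ℕ)) ^ (2 * k - s) * ((b : ℝ) + (2 * k + s : ℕ)) ^ (2 * k + s)
          ≤ ((1 + e2) * a) ^ (2 * k - s) * ((1 + e2) * b) ^ (2 * k + s) := by
        gcongr
      have f6 : ((1 + e2) * a) ^ (2 * k - s) * ((1 + e2) * b) ^ (2 * k + s)
          = (1 + e2) ^ (4 * k) * (Q ^ 2 * r ^ s) := by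
        have e : 4 * k = (2 * k - s) + (2 * k + s) := by omega
        have e' : Q ^ 2 = ((a : ℝ) * b) ^ (2 * k) := by rw [hQ, ← pow_mul, mul_comm k 2]
        rw [e', ← pw_eq hab (by omega : s ≤ 2 * k), e, mul_pow, mul_pow, pow_add (1 + e2)]
        ring
      have f7 : (1 + e2) ^ (4 * k) * (Q ^ 2 * r ^ s) ≤ (1 + d) * (Q ^ 2 * r ^ s) :=
        mul_le_mul_of_nonneg_right he2' (by positivity)
      have f8 := hh_ge (K := 2 * k) s (by omega)
      have f9 : (((a : ℝ) + (2 * k - s : ℕ)) ^ (2 * k - s) * ((b : ℝ) + (2 * k + s : ℕ)) ^ (2 * k + s))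
          / hh (2 * k) s ≤ (1 + d) * (Q ^ 2 * r ^ s) / hh (2 * k) 0 :=
        div_le_div₀ (by positivity) (f5.trans (f6.le.trans f7)) h0 f8
      refine (mul_le_mul_of_nonneg_left f9 (by positivity)).trans (le_of_eq ?_)
      ring
    have c3 : (∑ s ∈ range (2 * w), ((s : ℝ) + 2) * r ^ s) * (1 - r) ^ 2 ≤ 1 + d := by
      rw [geo2]
      have : 0 ≤ r ^ (2 * w) * ((((2 * w : ℕ) : ℝ) + 2) - (((2 * w : ℕ) : ℝ) + 1) * r) := by
        apply mul_nonneg (by positivity)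
        have : (0 : ℝ) ≤ ((2 * w : ℕ) : ℝ) := Nat.cast_nonneg _
        nlinarith
      linarith
    set Z : ℝ := (((TT a b k w 2).image (ps N)).card : ℝ) with hZ
    have hZ0 : 0 ≤ Z := Nat.cast_nonneg _
    set S : ℝ := ∑ s ∈ range (2 * w), ((s : ℝ) + 2) * r ^ s with hS
    clear_value Z S
    have c4 : hh (2 * k) 0 * Z * (1 - r) ^ 2 ≤ (1 + d) ^ 2 * Q ^ 2 := by
      have c5 : Z * (1 - r) ^ 2 ≤ (1 + d) * Q ^ 2 / hh (2 * k) 0 * (S * (1 - r) ^ 2) := by
        rw [← mul_assoc]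
        exact mul_le_mul_of_nonneg_right (c1.trans c2) (by positivity)
      have c6 : (1 + d) * Q ^ 2 / hh (2 * k) 0 * (S * (1 - r) ^ 2)
          ≤ (1 + d) * Q ^ 2 / hh (2 * k) 0 * (1 + d) :=
        mul_le_mul_of_nonneg_left c3 (by positivity)
      have c7 := mul_le_mul_of_nonneg_left (c5.trans c6) h0.le
      rw [mul_assoc]
      refine c7.trans (le_of_eq ?_)
      field_simp
    have hp : 0 < (1 - r) ^ 2 := by have : 0 < 1 - r := by linarith
                                    positivity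
    refine lt_of_mul_lt_mul_right ?_ hp.le
    rw [← mul_pow, hF]
    have c8 : (1 - c) * (hh (2 * k) 0 * (1 + d)) * Z * (1 - r) ^ 2
        ≤ (1 - 10 * d) * (1 + d) * (hh (2 * k) 0 * Z * (1 - r) ^ 2) := by
      have : (1 - c) * (hh (2 * k) 0 * (1 + d)) * Z * (1 - r) ^ 2
          = (1 - c) * ((1 + d) * (hh (2 * k) 0 * Z * (1 - r) ^ 2)) := by ring
      rw [this, mul_assoc (1 - 10 * d)]
      exact mul_le_mul_of_nonneg_right hdc (by positivity)
    have c9 : (1 - 10 * d) * (1 + d) * (hh (2 * k) 0 * Z * (1 - r) ^ 2)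
        ≤ (1 - 10 * d) * (1 + d) * ((1 + d) ^ 2 * Q ^ 2) :=
      mul_le_mul_of_nonneg_left c4 (mul_nonneg (by linarith) (by linarith))
    have c10 := num10 hd0 hd1
    have c11 : (1 - d) ^ 2 ≤ (1 - r ^ w) ^ 2 := by
      apply pow_le_pow_left₀ (by linarith)
      linarith
    refine lt_of_le_of_lt (c8.trans c9) ?_
    rw [mul_pow, ← mul_assoc, mul_comm (Q ^ 2)]
    exact mul_lt_mul_of_pos_right (lt_of_lt_of_le c10 c11) (by positivity)

end Pool.Agent.H.MP_7c1d9a_an
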