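import Pool.Agent.H.MP_7c1d9a_an.C

set_option autoImplicit false
open Finset Polynomial MeasureTheory
open scoped ENNReal

namespace Pool.Agent.H.MP_7c1d9a_an

noncomputable def st (F : ℝ[X]) (y : ℝ) : ℝ := if 0 ≤ y then F.coeff ⌊y⌋₊ else 0

lemma st_nonneg {F : ℝ[X]} (hF : Pos F) (y : ℝ) : 0 ≤ st F y := by
  unfold st
  split_ifs
  · exact hF _
  · exact le_rfl

lemma st_eq (F : ℝ[X]) (y : ℝ) : st F y = ∑ n ∈ range (F.natDegree + 1),
    (Set.Ico (n : ℝ) (n + 1)).indicator (fun _ => F.coeff n) y := by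
  unfold st
  split_ifs with h
  · rw [sum_eq_single ⌊y⌋₊]
    · rw [Set.indicator_of_mem]
      exact ⟨Nat.floor_le h, Nat.lt_floor_add_one y⟩
    · intro n _ hn
      rw [Set.indicator_of_notMem]
      intro hm
      exact hn ((Nat.floor_eq_iff h).2 hm).symm
    · intro hn
      rw [mem_range, not_lt] at hn
      rw [coeff_eq_zero_of_natDegree_lt (by omega)]
      simp
  · symm
    refine sum_eq_zero fun n _ => ?_
    rw [Set.indicator_of_notMem]
    intro hm
    exact h (le_trans (Nat.cast_nonneg n) hm.1)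

lemma st_memLp (F : ℝ[X]) (p : ℝ≥0∞) : MemLp (st F) p volume := by
  have : st F = fun y => ∑ n ∈ range (F.natDegree + 1),
    (Set.Ico (n : ℝ) (n + 1)).indicator (fun _ => F.coeff n) y := funext (st_eq F)
  rw [this]
  refine memLp_finset_sum _ fun n _ => ?_
  exact memLp_indicator_const p measurableSet_Ico _ (Or.inr (by simp))

lemma st_int (F : ℝ[X]) : Integrable (st F) volume := memLp_one_iff_integrable.1 (st_memLp F 1)

lemma st_integral (F : ℝ[X]) : ∫ y, st F y = F.eval 1 := by
  simp only [st_eq]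
  rw [integral_finset_sum]
  · rw [eval_eq_sum_range]
    refine sum_congr rfl fun n _ => ?_
    rw [integral_indicator measurableSet_Ico]
    simp
  · intro n _
    exact memLp_one_iff_integrable.1 (memLp_indicator_const 1 measurableSet_Ico _ (Or.inr (by simp)))

lemma st_conv (F : ℝ[X]) (z : ℝ) :
    ∑ n ∈ range (F.natDegree + 1), F.coeff n * st F (z - n) = st (F * F) z := by
  by_cases h : 0 ≤ z
  · have h1 : ∀ n : ℕ, st F (z - n) = if n ≤ ⌊z⌋₊ then F.coeff (⌊z⌋₊ - n) else 0 := by
      intro n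
      unfold st
      simp only [sub_nonneg, Nat.floor_sub_natCast, Nat.le_floor_iff h]
    simp only [h1]
    rw [st, if_pos h, coeff_mul,
      Finset.Nat.sum_antidiagonal_eq_sum_range_succ (fun i j => F.coeff i * F.coeff j)]
    have h2 : ∑ n ∈ range ⌊z⌋₊.succ, F.coeff n * F.coeff (⌊z⌋₊ - n) = ∑ n ∈ range ⌊z⌋₊.succ,
        F.coeff n * (if n ≤ ⌊z⌋₊ then F.coeff (⌊z⌋₊ - n) else 0) := by
      refine sum_congr rfl fun n hn => ?_
      rw [if_pos (Nat.lt_succ_iff.1 (mem_range.1 hn))]
    rw [h2]
    have h3 : range (F.natDegree + 1) ⊆ range (F.natDegree + 1 + ⌊z⌋₊.succ) :=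
      range_subset_range.2 (by omega)
    have h4 : range (⌊z⌋₊.succ) ⊆ range (F.natDegree + 1 + ⌊z⌋₊.succ) :=
      range_subset_range.2 (by omega)
    rw [sum_subset h3, sum_subset h4]
    · intro n _ hn
      rw [mem_range, not_lt] at hn
      rw [if_neg (by omega), mul_zero]
    · intro n _ hn
      rw [mem_range, not_lt] at hn
      rw [coeff_eq_zero_of_natDegree_lt (by omega), zero_mul]
  · rw [st, if_neg h]
    refine sum_eq_zero fun n _ => ?_
    rw [st, if_neg, mul_zero]
    have : (0 : ℝ) ≤ n := Nat.cast_nonneg n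
    intro h2
    exact h (by linarith)

lemma conv_eq (F : ℝ[X]) (x : ℝ) :
    ∫ t, st F t * st F (x - t) = ∫ u in (0 : ℝ)..1, st (F * F) (x - u) := by
  have hi : ∀ y : ℝ, Integrable (fun t => st F (y - t)) volume := fun y => (st_int F).comp_sub_left y
  have h1 : ∀ t, st F t * st F (x - t) = ∑ n ∈ range (F.natDegree + 1),
      (Set.Ico (n : ℝ) (n + 1)).indicator (fun t => F.coeff n * st F (x - t)) t := by
    intro t
    rw [st_eq F t, sum_mul]
    refine sum_congr rfl fun n _ => ?_
    by_cases h : t ∈ Set.Ico (n : ℝ) (n + 1)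
    · simp only [Set.indicator_of_mem h]
    · simp only [Set.indicator_of_notMem h, zero_mul]
  simp only [h1, ← st_conv]
  rw [integral_finset_sum, intervalIntegral.integral_finset_sum]
  · refine sum_congr rfl fun n _ => ?_
    rw [integral_indicator measurableSet_Ico, integral_Ico_eq_integral_Ioo,
      ← integral_Ioc_eq_integral_Ioo, ← intervalIntegral.integral_of_le (by linarith)]
    have := intervalIntegral.integral_comp_add_right (a := 0) (b := 1)
      (fun t => F.coeff n * st F (x - t)) (n : ℝ)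
    rw [zero_add, add_comm 1 (n : ℝ)] at this
    rw [← this]
    simp only [sub_sub]
  · intro n _
    have := ((hi (x - n)).const_mul (F.coeff n)).intervalIntegrable (a := 0) (b := 1)
    simpa only [sub_right_comm x (n : ℝ)] using this
  · intro n _
    exact ((hi x).const_mul _).indicator measurableSet_Ico

theorem main {c : ℝ} (hc : 0 < c) : ∃ f : ℝ → ℝ, (∀ x, 0 ≤ f x) ∧ MemLp f 1 volume ∧
    MemLp f 2 volume ∧ ¬ (eLpNorm (fun x : ℝ => ∫ t : ℝ, f t * f (x - t)) 2 volume ^ 2 ≤
          ENNReal.ofReal (1 - c) *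
            eLpNorm (fun x : ℝ => ∫ t : ℝ, f t * f (x - t)) 1 volume *
            eLpNorm (fun x : ℝ => ∫ t : ℝ, f t * f (x - t)) ⊤ volume) := by
  obtain ⟨F, M, D, hF, hM0, hM, hD, hF1, hlt⟩ := exists_poly hc
  refine ⟨st F, st_nonneg hF, st_memLp F 1, st_memLp F 2, fun hle => ?_⟩
  set g : ℝ → ℝ := fun x : ℝ => ∫ t : ℝ, st F t * st F (x - t) with hg
  have hg0 : ∀ x, 0 ≤ g x := fun x =>
    integral_nonneg fun t => mul_nonneg (st_nonneg hF _) (st_nonneg hF _)
  have hgc : g = MeasureTheory.convolution (st F) (st F) (ContinuousLinearMap.mul ℝ ℝ) volume := by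
    funext x
    simp [hg, MeasureTheory.convolution]
  have hgi : Integrable g volume := by
    rw [hgc]
    exact (st_int F).integrable_convolution _ (st_int F)
  have hgI : ∫ x, g x = (F.eval 1) ^ 2 := by
    rw [hgc, integral_convolution _ (st_int F) (st_int F), st_integral]
    simp [sq]
  have n1 : eLpNorm g 1 volume = ENNReal.ofReal ((F.eval 1) ^ 2) := by
    rw [eLpNorm_one_eq_lintegral_enorm, ← ofReal_integral_norm_eq_lintegral_enorm hgi, ← hgI]
    congr 1
    refine integral_congr_ae (Filter.Eventually.of_forall fun x => ?_)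
    exact Real.norm_of_nonneg (hg0 x)
  have hgM : ∀ x, g x ≤ M := by
    intro x
    simp only [hg]
    rw [conv_eq]
    have h1 : ∫ u in (0 : ℝ)..1, st (F * F) (x - u) ≤ ∫ _ in (0 : ℝ)..1, M := by
      refine intervalIntegral.integral_mono_on zero_le_one
        ((st_int _).comp_sub_left x).intervalIntegrable (by simp) fun u _ => ?_
      unfold st
      split_ifs
      · exact hM _
      · exact hM0
    simpa using h1
  have ninf : eLpNorm g ⊤ volume ≤ ENNReal.ofReal M := by
    rw [eLpNorm_exponent_top]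
    refine eLpNormEssSup_le_of_ae_bound (Filter.Eventually.of_forall fun x => ?_)
    rw [Real.norm_of_nonneg (hg0 x)]
    exact hgM x
  set S : Set ℝ := ⋃ n ∈ D, Set.Ico (n : ℝ) (n + 1) with hS
  have hSm : MeasurableSet S := Finset.measurableSet_biUnion _ fun _ _ => measurableSet_Ico
  have hSv : volume S ≤ ENNReal.ofReal D.card := by
    refine (measure_biUnion_finset_le _ _).trans ?_
    simp
  have hsupp : S.indicator g = g := by
    rw [Set.indicator_eq_self]
    intro x hx
    by_contra hxS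
    apply hx
    simp only [hg]
    rw [conv_eq]
    have : ∀ u ∈ Set.uIcc (0 : ℝ) 1, st (F * F) (x - u) = 0 := by
      intro u hu
      rw [Set.uIcc_of_le zero_le_one] at hu
      unfold st
      split_ifs with h
      · by_contra hne
        obtain ⟨d1, d2⟩ := hD _ hne
        have e1 := Nat.floor_le h
        have e2 := Nat.lt_floor_add_one (x - u)
        apply hxS
        by_cases hx1 : x < (⌊x - u⌋₊ : ℝ) + 1
        · exact Set.mem_biUnion (mem_coe.2 d1) ⟨by linarith [hu.1], hx1⟩
        · refine Set.mem_biUnion (mem_coe.2 d2) ⟨?_, ?_⟩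
          · push_cast; linarith
          · push_cast; linarith [hu.2]
      · rfl
    rw [intervalIntegral.integral_congr (g := fun _ => 0) this]
    simp
  have cs : eLpNorm g 1 volume ≤ eLpNorm g 2 volume * (volume S) ^ (1 / 2 : ℝ) := by
    have h1 : eLpNorm g 1 volume = eLpNorm g 1 (volume.restrict S) := by
      rw [← eLpNorm_indicator_eq_eLpNorm_restrict hSm, hsupp]
    have h2 := eLpNorm_le_eLpNorm_mul_rpow_measure_univ (μ := volume.restrict S)
      (p := 1) (q := 2) (by norm_num) hgi.aestronglyMeasurable.restrict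
    rw [h1]
    refine h2.trans ?_
    rw [Measure.restrict_apply_univ]
    have e : 1 / (1 : ℝ≥0∞).toReal - 1 / (2 : ℝ≥0∞).toReal = (1 / 2 : ℝ) := by norm_num
    rw [e]
    exact mul_le_mul_left (eLpNorm_restrict_le _ _ _ _) _
  have cs2 : eLpNorm g 1 volume ^ 2 ≤ eLpNorm g 2 volume ^ 2 * volume S := by
    refine (pow_le_pow_left' cs 2).trans (le_of_eq ?_)
    rw [mul_pow]
    congr 1
    rw [← ENNReal.rpow_natCast, ← ENNReal.rpow_mul]
    norm_num
  have fin : ENNReal.ofReal ((F.eval 1) ^ 2) ^ 2 ≤ ENNReal.ofReal (1 - c) *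
      ENNReal.ofReal ((F.eval 1) ^ 2) * ENNReal.ofReal M * ENNReal.ofReal D.card := by
    rw [← n1]
    refine cs2.trans (mul_le_mul' (hle.trans ?_) hSv)
    exact mul_le_mul' le_rfl ninf
  have hp : 0 < (F.eval 1) ^ 2 := by positivity
  by_cases hc1 : 0 ≤ 1 - c
  · rw [← ENNReal.ofReal_pow hp.le, ← ENNReal.ofReal_mul hc1, ← ENNReal.ofReal_mul (by positivity),
      ← ENNReal.ofReal_mul (by positivity), ENNReal.ofReal_le_ofReal_iff (by positivity)] at fin
    have := mul_lt_mul_of_pos_left hlt hp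
    nlinarith
  · rw [ENNReal.ofReal_of_nonpos (not_le.1 hc1).le, zero_mul, zero_mul, zero_mul,
      ← ENNReal.ofReal_pow hp.le, nonpos_iff_eq_zero, ENNReal.ofReal_eq_zero] at fin
    have : 0 < ((F.eval 1) ^ 2) ^ 2 := by positivity
    linarith

end Pool.Agent.H.MP_7c1d9a_an
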